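import Mathlib

set_option autoImplicit false

namespace Pool.Agent.Results.MP_506947_al.FoxIdealsDiffer

/-- The augmentation `ℤG → ℤ`, `∑ a_g g ↦ ∑ a_g`. A map into `ℤ` that is semilinear over it is the
same as a `ℤG`-linear map into the trivial module `ℤ`. -/
noncomputable def aug (G : Type) [Group G] : MonoidAlgebra ℤ G →+* ℤ :=
  (MonoidAlgebra.lift ℤ ℤ G (1 : G →* ℤ)).toRingHom

/-- A partial resolution of length `m` of the trivial module `ℤ` by finitely generated free (left)
`ℤG`-modules `C_i = (ℤG)^{rk i}`, `i = 0, …, m`: an exact sequence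
`C_m → C_{m-1} → ⋯ → C_0 → ℤ`, exact at `C_0, …, C_{m-1}` and with `C_0 → ℤ` onto.
Only the data with index at most `m` matter. -/
structure PartialResolution (G : Type) [Group G] (m : ℕ) where
  /-- the rank of `C_i` (used for `i ≤ m`) -/
  rk : ℕ → ℕ
  /-- `∂_0 : C_0 → ℤ` -/
  d0 : (Fin (rk 0) → MonoidAlgebra ℤ G) →ₛₗ[aug G] ℤ
  /-- `∂_{i+1} : C_{i+1} → C_i` (used for `i + 1 ≤ m`) -/
  d : (i : ℕ) → (Fin (rk (i + 1)) → MonoidAlgebra ℤ G) →ₗ[MonoidAlgebra ℤ G]
    (Fin (rk i) → MonoidAlgebra ℤ G)
  /-- `∂_0` is onto -/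
  surj : Function.Surjective d0
  /-- exactness at `C_0` if `m ≥ 1` -/
  exact_zero : 0 < m → LinearMap.range (d 0) = LinearMap.ker d0
  /-- exactness at `C_{i+1}` if `i + 1 ≤ m - 1` -/
  exact_succ : ∀ i, i + 1 < m → LinearMap.range (d (i + 1)) = LinearMap.ker (d i)

namespace PartialResolution

variable {G : Type} [Group G] {m : ℕ}

/-- The kernel of the last map `∂_m : C_m → C_{m-1}` (with `C_{-1} = ℤ`). -/
noncomputable def topKer : {m : ℕ} → (C : PartialResolution G m) →
    Submodule (MonoidAlgebra ℤ G) (Fin (C.rk m) → MonoidAlgebra ℤ G)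
  | 0, C => LinearMap.ker C.d0
  | m + 1, C => LinearMap.ker (C.d m)

/-- The `m`-th Fox ideal `I_m(C)`: the two-sided ideal of `ℤG` generated by all coordinates of all
elements of `ker ∂_m`. -/
noncomputable def foxIdeal (C : PartialResolution G m) : TwoSidedIdeal (MonoidAlgebra ℤ G) :=
  TwoSidedIdeal.span {a | ∃ t ∈ C.topKer, ∃ j, t j = a}

/-- The directed Euler characteristic `(-1)^m χ(C) = ∑_{i=0}^m (-1)^{i+m} rk C_i`. -/
def dirEuler (C : PartialResolution G m) : ℤ :=
  ∑ i ∈ Finset.range (m + 1), (-1) ^ (i + m) * (C.rk i : ℤ)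

/-- `C` is minimal: its directed Euler characteristic is the smallest one among all partial
resolutions of length `m` of the same group. -/
def IsMinimal (C : PartialResolution G m) : Prop :=
  ∀ D : PartialResolution G m, C.dirEuler ≤ D.dirEuler

end PartialResolution

/-! ### Partial resolutions of length one from generating families -/

section generators

variable {G : Type} [Group G]

lemma aug_of (g : G) : aug G (MonoidAlgebra.of ℤ G g) = 1 := by
  simp [aug]

lemma aug_smul_int (r : ℤ) (a : MonoidAlgebra ℤ G) : aug G (r • a) = r * aug G a := by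
  rw [map_zsmul, smul_eq_mul]

/-- `v ↦ ∑ v_i (X_i - 1)`. -/
noncomputable def genMap {n : ℕ} (X : Fin n → G) :
    (Fin n → MonoidAlgebra ℤ G) →ₗ[MonoidAlgebra ℤ G] MonoidAlgebra ℤ G where
  toFun v := ∑ i, v i * (MonoidAlgebra.of ℤ G (X i) - 1)
  map_add' v w := by
    simp only [Pi.add_apply, add_mul, Finset.sum_add_distrib]
  map_smul' a v := by
    simp only [Pi.smul_apply, smul_eq_mul, RingHom.id_apply, Finset.mul_sum, mul_assoc]

lemma genMap_apply {n : ℕ} (X : Fin n → G) (v : Fin n → MonoidAlgebra ℤ G) :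
    genMap X v = ∑ i, v i * (MonoidAlgebra.of ℤ G (X i) - 1) := rfl

lemma aug_genMap {n : ℕ} (X : Fin n → G) (v : Fin n → MonoidAlgebra ℤ G) :
    aug G (genMap X v) = 0 := by
  rw [genMap_apply, map_sum]
  apply Finset.sum_eq_zero
  intro i _
  rw [map_mul, map_sub, aug_of, map_one, sub_self, mul_zero]

lemma mem_range_genMap_of {n : ℕ} (X : Fin n → G) (hX : Subgroup.closure (Set.range X) = ⊤)
    (g : G) : MonoidAlgebra.of ℤ G g - 1 ∈ LinearMap.range (genMap X) := by
  classical
  have hg : g ∈ Subgroup.closure (Set.range X) := by rw [hX]; trivial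
  induction hg using Subgroup.closure_induction with
  | mem x hx =>
    obtain ⟨i, rfl⟩ := hx
    refine ⟨Pi.single i 1, ?_⟩
    rw [genMap_apply, Finset.sum_eq_single i]
    · rw [Pi.single_eq_same, one_mul]
    · intro j _ hj
      rw [Pi.single_eq_of_ne hj, zero_mul]
    · intro h
      exact absurd (Finset.mem_univ i) h
  | one => rw [map_one, sub_self]; exact Submodule.zero_mem _
  | mul x y _ _ hx hy =>
    have : MonoidAlgebra.of ℤ G (x * y) - 1 =
        MonoidAlgebra.of ℤ G x • (MonoidAlgebra.of ℤ G y - 1) + (MonoidAlgebra.of ℤ G x - 1) := by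
      rw [smul_eq_mul, map_mul]; noncomm_ring
    rw [this]
    exact Submodule.add_mem _ (Submodule.smul_mem _ _ hy) hx
  | inv x _ hx =>
    have : MonoidAlgebra.of ℤ G x⁻¹ - 1 =
        (-MonoidAlgebra.of ℤ G x⁻¹) • (MonoidAlgebra.of ℤ G x - 1) := by
      have h1 : MonoidAlgebra.of ℤ G x⁻¹ * MonoidAlgebra.of ℤ G x = 1 := by
        rw [← map_mul, inv_mul_cancel, map_one]
      rw [smul_eq_mul, mul_sub, neg_mul, h1, mul_one]
      abel
    rw [this]
    exact Submodule.smul_mem _ _ hx

lemma mem_range_genMap {n : ℕ} (X : Fin n → G) (hX : Subgroup.closure (Set.range X) = ⊤)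
    (a : MonoidAlgebra ℤ G) (ha : aug G a = 0) : a ∈ LinearMap.range (genMap X) := by
  have key : ∀ a : MonoidAlgebra ℤ G, a - (aug G a) • (1 : MonoidAlgebra ℤ G) ∈
      LinearMap.range (genMap X) := by
    intro a
    induction a using MonoidAlgebra.induction_on with
    | of g =>
      rw [aug_of, one_smul]
      exact mem_range_genMap_of X hX g
    | add x y hx hy =>
      have : x + y - (aug G (x + y)) • (1 : MonoidAlgebra ℤ G) =
          (x - (aug G x) • (1 : MonoidAlgebra ℤ G)) +
          (y - (aug G y) • (1 : MonoidAlgebra ℤ G)) := by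
        rw [map_add, add_smul]; abel
      rw [this]
      exact Submodule.add_mem _ hx hy
    | smul r x hx =>
      have : r • x - (aug G (r • x)) • (1 : MonoidAlgebra ℤ G) =
          r • (x - (aug G x) • (1 : MonoidAlgebra ℤ G)) := by
        rw [aug_smul_int, smul_sub, mul_smul]
      rw [this]
      exact (LinearMap.range (genMap X)).toAddSubgroup.zsmul_mem hx r
  have := key a
  rwa [ha, zero_smul, sub_zero] at this

/-- The ranks `1, n, 0, 0, …`. -/
def rkOf (n : ℕ) : ℕ → ℕ
  | 0 => 1
  | 1 => n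
  | _ + 2 => 0

/-- The index of the unique basis element of `C_0`. -/
def idx0 (n : ℕ) : Fin (rkOf n 0) := ⟨0, Nat.one_pos⟩

/-- The partial resolution `(ℤG)^n → ℤG → ℤ` attached to a generating family of length `n`. -/
noncomputable def resOf {n : ℕ} (X : Fin n → G) (hX : Subgroup.closure (Set.range X) = ⊤) :
    PartialResolution G 1 where
  rk := rkOf n
  d0 :=
    { toFun := fun v => aug G (v (idx0 n))
      map_add' := fun v w => by rw [Pi.add_apply, map_add]
      map_smul' := fun a v => by rw [Pi.smul_apply, smul_eq_mul, map_mul, smul_eq_mul] }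
  d := fun i => match i with
    | 0 => LinearMap.pi fun _ => genMap X
    | _ + 1 => 0
  surj := by
    intro r
    refine ⟨fun _ => r • 1, ?_⟩
    change aug G (r • 1) = r
    rw [aug_smul_int, map_one, mul_one]
  exact_zero := by
    intro _
    ext v
    constructor
    · rintro ⟨w, rfl⟩
      change aug G (genMap X w) = 0
      exact aug_genMap X w
    · intro hv
      have hv' : aug G (v (idx0 n)) = 0 := hv
      obtain ⟨w, hw⟩ := mem_range_genMap X hX _ hv'
      refine ⟨w, ?_⟩
      funext j
      change genMap X w = v j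
      rw [hw]
      exact congrArg v (Subsingleton.elim (α := Fin 1) _ _)
  exact_succ := by
    intro i hi
    omega

lemma mem_topKer_resOf {n : ℕ} (X : Fin n → G) (hX : Subgroup.closure (Set.range X) = ⊤)
    (v : Fin n → MonoidAlgebra ℤ G) :
    v ∈ (resOf X hX).topKer ↔ genMap X v = 0 := by
  constructor
  · intro h
    have h' : (LinearMap.pi fun _ : Fin 1 => genMap X) v = 0 := h
    exact congrFun h' 0
  · intro h
    change (LinearMap.pi fun _ : Fin 1 => genMap X) v = 0
    funext j
    exact h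

lemma dirEuler_resOf {n : ℕ} (X : Fin n → G) (hX : Subgroup.closure (Set.range X) = ⊤) :
    (resOf X hX).dirEuler = (n : ℤ) - 1 := by
  rw [PartialResolution.dirEuler, Finset.sum_range_succ, Finset.sum_range_one]
  change (-1) ^ (0 + 1) * ((1 : ℕ) : ℤ) + (-1) ^ (1 + 1) * ((n : ℕ) : ℤ) = (n : ℤ) - 1
  push_cast
  ring

/-- The lower bound for the directed Euler characteristic in length one: a homomorphism from `G`
onto `(ℤ/2)^n` that is surjective in the strong sense that `h (X i)` is the `i`-th unit vector. -/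
lemma le_dirEuler {n : ℕ} (h : G → Fin n → ZMod 2) (hmul : ∀ a b, h (a * b) = h a + h b)
    (X : Fin n → G) (hX : ∀ i, h (X i) = Pi.single i 1) (D : PartialResolution G 1) :
    (n : ℤ) - 1 ≤ D.dirEuler := by
  classical
  have h1 : h 1 = 0 := by
    have := hmul 1 1
    rw [mul_one] at this
    simpa using this
  -- the additive extension of `h`
  let δ : MonoidAlgebra ℤ G →+ (Fin n → ZMod 2) :=
    MonoidAlgebra.liftNC (Int.castAddHom (Fin n → ZMod 2)) h
  have δ_of : ∀ g, δ (MonoidAlgebra.of ℤ G g) = h g := by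
    intro g
    change MonoidAlgebra.liftNC (Int.castAddHom (Fin n → ZMod 2)) h (MonoidAlgebra.single g 1) = _
    rw [MonoidAlgebra.liftNC_single]
    simp
  let ε : MonoidAlgebra ℤ G →+* ZMod 2 := (Int.castRingHom (ZMod 2)).comp (aug G)
  have ε_of : ∀ g, ε (MonoidAlgebra.of ℤ G g) = 1 := by
    intro g
    change Int.castRingHom (ZMod 2) (aug G (MonoidAlgebra.of ℤ G g)) = 1
    rw [aug_of, map_one]
  have δ_smul : ∀ (r : ℤ) a, δ (r • a) = (r : ZMod 2) • δ a := by
    intro r a
    rw [map_zsmul, Int.cast_smul_eq_zsmul]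
  have ε_smul : ∀ (r : ℤ) a, ε (r • a) = (r : ZMod 2) * ε a := by
    intro r a
    rw [map_zsmul, zsmul_eq_mul]
  -- the product rule
  have δ_mul : ∀ a b, δ (a * b) = ε a • δ b + ε b • δ a := by
    intro a b
    induction a using MonoidAlgebra.induction_on with
    | of g =>
      induction b using MonoidAlgebra.induction_on with
      | of g' =>
        rw [← map_mul, δ_of, δ_of, δ_of, ε_of, ε_of, hmul, one_smul, one_smul, add_comm]
      | add x y hx hy =>
        rw [mul_add, map_add, hx, hy, map_add, map_add, smul_add, add_smul]; abel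
      | smul r x hx =>
        rw [mul_smul_comm, δ_smul, hx, δ_smul, ε_smul, smul_add, mul_smul, smul_comm]
    | add x y hx hy =>
      rw [add_mul, map_add, hx, hy, map_add, map_add, smul_add, add_smul]; abel
    | smul r x hx =>
      rw [smul_mul_assoc, δ_smul, hx, δ_smul, ε_smul, smul_add, mul_smul, smul_comm (ε b)]
  -- an element of augmentation one and a lift of the identity
  obtain ⟨c, hc⟩ := D.surj 1
  let φ : (Fin (D.rk 0) → MonoidAlgebra ℤ G) →ₗ[MonoidAlgebra ℤ G] MonoidAlgebra ℤ G :=
    { toFun := fun a => ∑ i, a i * (D.d0 (Pi.single i 1) • (1 : MonoidAlgebra ℤ G))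
      map_add' := fun v w => by simp only [Pi.add_apply, add_mul, Finset.sum_add_distrib]
      map_smul' := fun a v => by
        simp only [Pi.smul_apply, smul_eq_mul, RingHom.id_apply, Finset.mul_sum, mul_assoc] }
  have hφ : ∀ a, aug G (φ a) = D.d0 a := by
    intro a
    have ha : a = ∑ i, a i • (Pi.single i (1 : MonoidAlgebra ℤ G) :
        Fin (D.rk 0) → MonoidAlgebra ℤ G) := by
      funext j
      rw [Finset.sum_apply, Finset.sum_eq_single j]
      · simp
      · intro i _ hij
        simp [Pi.single_eq_of_ne hij.symm]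
      · intro hj
        exact absurd (Finset.mem_univ j) hj
    conv_rhs => rw [ha, map_sum]
    change aug G (∑ i, a i * (D.d0 (Pi.single i 1) • (1 : MonoidAlgebra ℤ G))) = _
    rw [map_sum]
    apply Finset.sum_congr rfl
    intro i _
    rw [map_mul, aug_smul_int, map_one, mul_one, LinearMap.map_smulₛₗ, smul_eq_mul]
  -- the target map
  let θ : (Fin (D.rk 0) → MonoidAlgebra ℤ G) × MonoidAlgebra ℤ G →+
      (Fin (D.rk 0) → ZMod 2) × (Fin n → ZMod 2) :=
    { toFun := fun p => (fun i => ε (p.1 i), δ (p.2 - φ p.1))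
      map_zero' := by
        ext <;> simp
      map_add' := fun p q => by
        refine Prod.ext ?_ ?_
        · funext i
          simp
        · change δ ((p + q).2 - φ (p + q).1) = δ (p.2 - φ p.1) + δ (q.2 - φ q.1)
          rw [← map_add δ, Prod.snd_add, Prod.fst_add, map_add φ]
          congr 1
          abel }
  have hθ : ∀ (a : MonoidAlgebra ℤ G) (p : (Fin (D.rk 0) → MonoidAlgebra ℤ G) × MonoidAlgebra ℤ G),
      D.d0 p.1 = aug G p.2 → θ (a • p) = ε a • θ p := by
    intro a p hp
    ext i
    · change ε ((a • p).1 i) = ε a • ε (p.1 i)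
      rw [Prod.smul_fst, Pi.smul_apply, smul_eq_mul, map_mul, smul_eq_mul]
    · change δ ((a • p).2 - φ (a • p).1) i = ε a • δ (p.2 - φ p.1) i
      rw [Prod.smul_snd, Prod.smul_fst, map_smul, ← smul_sub, smul_eq_mul, δ_mul]
      have h0 : ε (p.2 - φ p.1) = 0 := by
        change Int.castRingHom (ZMod 2) (aug G (p.2 - φ p.1)) = 0
        rw [map_sub (aug G), hφ, hp, sub_self, map_zero]
      rw [h0, zero_smul, add_zero, Pi.smul_apply]
  -- the images of the module generators
  let w : Fin (D.rk 1) → (Fin (D.rk 0) → ZMod 2) × (Fin n → ZMod 2) :=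
    fun j => θ (D.d 0 (Pi.single j 1), 0)
  let Ψ : ((Fin (D.rk 1) → ZMod 2) × ZMod 2) →ₗ[ZMod 2]
      (Fin (D.rk 0) → ZMod 2) × (Fin n → ZMod 2) :=
    { toFun := fun p => ∑ j, p.1 j • w j + p.2 • θ (c, 1)
      map_add' := fun p q => by
        simp only [Prod.fst_add, Prod.snd_add, Pi.add_apply, add_smul, Finset.sum_add_distrib]
        abel
      map_smul' := fun r p => by
        simp only [Prod.smul_fst, Prod.smul_snd, Pi.smul_apply, smul_eq_mul, mul_smul,
          Finset.smul_sum, smul_add, RingHom.id_apply] }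
  have hΨ : Function.Surjective Ψ := by
    rintro ⟨α, β⟩
    -- a preimage under `θ` in the pull-back
    obtain ⟨a, ha⟩ : ∃ a : Fin (D.rk 0) → MonoidAlgebra ℤ G, ∀ i, ε (a i) = α i := by
      refine ⟨fun i => (α i).val • 1, fun i => ?_⟩
      rw [map_nsmul, map_one, nsmul_eq_mul, mul_one, ZMod.natCast_zmod_val]
    obtain ⟨b, hb0, hb⟩ : ∃ b : MonoidAlgebra ℤ G, aug G b = 0 ∧ δ b = β := by
      refine ⟨∑ i, ((β i).val : ℤ) • (MonoidAlgebra.of ℤ G (X i) - 1), ?_, ?_⟩
      · rw [map_sum]
        apply Finset.sum_eq_zero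
        intro i _
        rw [aug_smul_int, map_sub, aug_of, map_one, sub_self, mul_zero]
      · rw [map_sum]
        have : ∀ i, δ (((β i).val : ℤ) • (MonoidAlgebra.of ℤ G (X i) - 1)) =
            Pi.single i (β i) := by
          intro i
          have hone : δ 1 = 0 := by
            have := δ_of 1
            rw [map_one, h1] at this
            exact this
          rw [δ_smul, map_sub, δ_of, hone, sub_zero, hX]
          funext j
          by_cases hij : j = i
          · subst hij
            simp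
          · simp [Pi.single_eq_of_ne hij]
        rw [Finset.sum_congr rfl (fun i _ => this i)]
        exact Finset.univ_sum_single β
    have hθab : θ (a, φ a + b) = (α, β) := by
      ext i
      · exact ha i
      · change δ (φ a + b - φ a) i = β i
        rw [add_sub_cancel_left, hb]
    -- decompose `(a, φ a + b)`
    have hmem : a - (φ a + b) • c ∈ LinearMap.ker D.d0 := by
      rw [LinearMap.mem_ker, map_sub, LinearMap.map_smulₛₗ, hc, map_add, hφ, hb0, add_zero,
        smul_eq_mul, mul_one, sub_self]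
    rw [← D.exact_zero Nat.one_pos] at hmem
    obtain ⟨v, hv⟩ := hmem
    have hvsum : D.d 0 v = ∑ j, v j • D.d 0 (Pi.single j 1) := by
      have hv' : v = ∑ j, v j • (Pi.single j (1 : MonoidAlgebra ℤ G) :
          Fin (D.rk 1) → MonoidAlgebra ℤ G) := by
        funext l
        rw [Finset.sum_apply, Finset.sum_eq_single l]
        · simp
        · intro i _ hij
          simp [Pi.single_eq_of_ne hij.symm]
        · intro hj
          exact absurd (Finset.mem_univ l) hj
      conv_lhs => rw [hv', map_sum]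
      apply Finset.sum_congr rfl
      intro j _
      rw [map_smul]
    have hdec : (a, φ a + b) = ∑ j, v j • (D.d 0 (Pi.single j 1), (0 : MonoidAlgebra ℤ G)) +
        (φ a + b) • (c, (1 : MonoidAlgebra ℤ G)) := by
      refine Prod.ext ?_ ?_
      · rw [Prod.fst_add, Prod.fst_sum]
        simp only [Prod.smul_fst]
        rw [← hvsum, hv]
        abel
      · rw [Prod.snd_add, Prod.snd_sum]
        simp
    refine ⟨(fun j => ε (v j), ε (φ a + b)), ?_⟩
    rw [← hθab, hdec, map_add θ, map_sum θ]
    change ∑ j, ε (v j) • w j + ε (φ a + b) • θ (c, 1) = _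
    congr 1
    · apply Finset.sum_congr rfl
      intro j _
      rw [hθ]
      change D.d0 (D.d 0 (Pi.single j 1)) = aug G 0
      rw [map_zero]
      have : D.d 0 (Pi.single j 1) ∈ LinearMap.ker D.d0 := by
        rw [← D.exact_zero Nat.one_pos]
        exact ⟨_, rfl⟩
      exact this
    · rw [hθ]
      change D.d0 c = aug G 1
      rw [hc, map_one]
  have hrank := LinearMap.finrank_le_finrank_of_surjective hΨ
  rw [Module.finrank_prod, Module.finrank_prod, Module.finrank_fin_fun, Module.finrank_fin_fun,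
    Module.finrank_fin_fun, Module.finrank_self] at hrank
  have hE : D.dirEuler = (D.rk 1 : ℤ) - (D.rk 0 : ℤ) := by
    rw [PartialResolution.dirEuler, Finset.sum_range_succ, Finset.sum_range_one]
    ring
  rw [hE]
  omega

end generators

/-! ### Derivations and vanishing of Fox ideals in a quotient ring -/

section derivation

variable {G : Type} [Group G] {L : Type} [Ring L]

/-- The ring homomorphism `ℤG → L` induced by a homomorphism `G → Lˣ`. -/
noncomputable def rep (π : G →* Lˣ) : MonoidAlgebra ℤ G →+* L :=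
  (MonoidAlgebra.lift ℤ L G ((Units.coeHom L).comp π)).toRingHom

lemma rep_of (π : G →* Lˣ) (g : G) : rep π (MonoidAlgebra.of ℤ G g) = (π g : L) := by
  simp [rep]

lemma derivation_sum {n : ℕ} (π : G →* Lˣ) (D : G → L)
    (hD : ∀ g h, D (g * h) = D g + (π g : L) * D h) (X : Fin n → G)
    (v : Fin n → MonoidAlgebra ℤ G) (hv : genMap X v = 0) :
    ∑ i, rep π (v i) * D (X i) = 0 := by
  let Dt : MonoidAlgebra ℤ G →+ L := MonoidAlgebra.liftNC (Int.castAddHom L) D
  have Dt_of : ∀ g, Dt (MonoidAlgebra.of ℤ G g) = D g := by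
    intro g
    change MonoidAlgebra.liftNC (Int.castAddHom L) D (MonoidAlgebra.single g 1) = _
    rw [MonoidAlgebra.liftNC_single]
    simp
  have key : ∀ a g, Dt (a * (MonoidAlgebra.of ℤ G g - 1)) = rep π a * D g := by
    intro a g
    induction a using MonoidAlgebra.induction_on with
    | of h =>
      rw [mul_sub, mul_one, ← map_mul, map_sub, Dt_of, Dt_of, hD, rep_of]
      abel
    | add x y hx hy =>
      rw [add_mul, map_add, hx, hy, map_add, add_mul]
    | smul r x hx =>
      rw [smul_mul_assoc, map_zsmul, hx, map_zsmul, smul_mul_assoc]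
  have h0 : Dt (genMap X v) = 0 := by rw [hv, map_zero]
  rw [genMap_apply, map_sum] at h0
  rw [← h0]
  exact Finset.sum_congr rfl fun i _ => (key _ _).symm

lemma exists_derivation {n : ℕ} (π : G →* Lˣ) (Y : Fin n → G)
    (hY : Subgroup.closure (Set.range Y) = ⊤)
    (h0 : ∀ v, genMap Y v = 0 → ∀ i, rep π (v i) = 0) (c : Fin n → L) :
    ∃ D : G → L, (∀ g h, D (g * h) = D g + (π g : L) * D h) ∧ ∀ i, D (Y i) = c i := by
  classical
  have hex : ∀ g : G, ∃ v, genMap Y v = MonoidAlgebra.of ℤ G g - 1 :=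
    fun g => mem_range_genMap_of Y hY g
  choose V hV using hex
  have hwd : ∀ v w, genMap Y v = genMap Y w →
      ∑ i, rep π (v i) * c i = ∑ i, rep π (w i) * c i := by
    intro v w hvw
    have h1 : genMap Y (v - w) = 0 := by rw [map_sub, hvw, sub_self]
    have h2 := h0 _ h1
    refine Finset.sum_congr rfl fun i _ => ?_
    have h3 := h2 i
    rw [Pi.sub_apply, map_sub, sub_eq_zero] at h3
    rw [h3]
  refine ⟨fun g => ∑ i, rep π (V g i) * c i, ?_, ?_⟩
  · intro g h
    have h1 : genMap Y (V (g * h)) = genMap Y (V g + MonoidAlgebra.of ℤ G g • V h) := by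
      rw [map_add, map_smul, hV, hV, hV, smul_eq_mul, map_mul]
      noncomm_ring
    change ∑ i, rep π (V (g * h) i) * c i =
      ∑ i, rep π (V g i) * c i + (π g : L) * ∑ i, rep π (V h i) * c i
    rw [hwd _ _ h1, Finset.mul_sum, ← Finset.sum_add_distrib]
    refine Finset.sum_congr rfl fun i _ => ?_
    rw [Pi.add_apply, Pi.smul_apply, smul_eq_mul, map_add, map_mul, rep_of, add_mul, mul_assoc]
  · intro i
    have h1 : genMap Y (V (Y i)) = genMap Y (Pi.single i 1) := by
      rw [hV, genMap_apply, Finset.sum_eq_single i]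
      · rw [Pi.single_eq_same, one_mul]
      · intro j _ hj
        rw [Pi.single_eq_of_ne hj, zero_mul]
      · intro h
        exact absurd (Finset.mem_univ i) h
    change ∑ j, rep π (V (Y i) j) * c j = c i
    rw [hwd _ _ h1, Finset.sum_eq_single i]
    · rw [Pi.single_eq_same, map_one, one_mul]
    · intro j _ hj
      rw [Pi.single_eq_of_ne hj, map_zero, zero_mul]
    · intro h
      exact absurd (Finset.mem_univ i) h

end derivation

/-! ### The affine group over a ring which is not directly finite -/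

/-- Elements `(g, v, w)` of `(L³ ⋊ Lˣ) × (ℤ/2)⁴`. -/
@[ext] structure Big (L : Type) [Ring L] where
  /-- linear part -/
  g : Lˣ
  /-- translation part -/
  v : Fin 3 → L
  /-- abelian part -/
  w : Fin 4 → ZMod 2

namespace Big

variable {L : Type} [Ring L]

instance : Mul (Big L) :=
  ⟨fun a b => ⟨a.g * b.g, fun i => a.v i + (a.g : L) * b.v i, a.w + b.w⟩⟩

instance : One (Big L) := ⟨⟨1, 0, 0⟩⟩

instance : Inv (Big L) :=
  ⟨fun a => ⟨a.g⁻¹, fun i => -(((a.g⁻¹ : Lˣ) : L) * a.v i), -a.w⟩⟩

@[simp] lemma mul_g (a b : Big L) : (a * b).g = a.g * b.g := rfl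
@[simp] lemma mul_v (a b : Big L) (i : Fin 3) : (a * b).v i = a.v i + (a.g : L) * b.v i := rfl
@[simp] lemma mul_w (a b : Big L) : (a * b).w = a.w + b.w := rfl
@[simp] lemma one_g : (1 : Big L).g = 1 := rfl
@[simp] lemma one_v : (1 : Big L).v = 0 := rfl
@[simp] lemma one_w : (1 : Big L).w = 0 := rfl
@[simp] lemma inv_g (a : Big L) : (a⁻¹).g = a.g⁻¹ := rfl
@[simp] lemma inv_v (a : Big L) (i : Fin 3) : (a⁻¹).v i = -(((a.g⁻¹ : Lˣ) : L) * a.v i) := rfl
@[simp] lemma inv_w (a : Big L) : (a⁻¹).w = -a.w := rfl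

instance : Group (Big L) := Group.ofLeftAxioms
  (by
    intro a b c
    ext i
    · simp [mul_assoc]
    · simp [mul_add, add_assoc, mul_assoc]
    · simp [add_assoc])
  (by
    intro a
    ext i <;> simp)
  (by
    intro a
    ext i
    · simp
    · simp
    · simp [CharTwo.add_self_eq_zero])

/-- The translation by `a` in direction `0`. -/
def tr (a : L) : Big L := ⟨1, Pi.single 0 a, 0⟩

@[simp] lemma tr_g (a : L) : (tr a).g = 1 := rfl
@[simp] lemma tr_v (a : L) : (tr a).v = Pi.single 0 a := rfl
@[simp] lemma tr_w (a : L) : (tr a).w = 0 := rfl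

lemma tr_mul (a b : L) : tr a * tr b = tr (a + b) := by
  ext i
  · simp
  · simp [Pi.single_apply]
    split <;> simp
  · simp

lemma tr_inv (a : L) : (tr a)⁻¹ = tr (-a) := by
  ext i
  · simp
  · simp only [inv_v, tr_v, tr_g, inv_one, Units.val_one, one_mul, Pi.single_apply]
    split <;> simp
  · simp

lemma conj_tr (h : Big L) (a : L) : h * tr a * h⁻¹ = tr ((h.g : L) * a) := by
  ext i
  · simp
  · simp only [mul_v, mul_g, tr_v, inv_v, tr_g, mul_one]
    rw [mul_neg, ← mul_assoc, Units.mul_inv, one_mul]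
    simp only [Pi.single_apply]
    split <;> simp
  · simp [CharTwo.add_self_eq_zero]

/-- The family `X_i = (u_i, e_i)`, `i = 0,1,2`, and `z = (-1, 0)`, with `e_0` replaced by
`a e_0`. -/
def gens (u : Fin 3 → Lˣ) (a : L) : Fin 4 → Big L :=
  ![⟨u 0, Pi.single 0 a, Pi.single 0 1⟩, ⟨u 1, Pi.single 1 1, Pi.single 1 1⟩,
    ⟨u 2, Pi.single 2 1, Pi.single 2 1⟩, ⟨-1, 0, Pi.single 3 1⟩]

lemma gens_zero (u : Fin 3 → Lˣ) (a : L) : gens u a 0 = ⟨u 0, Pi.single 0 a, Pi.single 0 1⟩ := rfl
lemma gens_one (u : Fin 3 → Lˣ) (a : L) : gens u a 1 = ⟨u 1, Pi.single 1 1, Pi.single 1 1⟩ := rfl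
lemma gens_two (u : Fin 3 → Lˣ) (a : L) : gens u a 2 = ⟨u 2, Pi.single 2 1, Pi.single 2 1⟩ := rfl
lemma gens_three (u : Fin 3 → Lˣ) (a : L) : gens u a 3 = ⟨-1, 0, Pi.single 3 1⟩ := rfl

/-- The commutator of `z` and the first generator is a translation (characteristic three). -/
lemma comm_eq (h3 : (3 : L) = 0) (u : Fin 3 → Lˣ) (a : L) :
    gens u a 3 * gens u a 0 * (gens u a 3)⁻¹ * (gens u a 0)⁻¹ = tr a := by
  have h2 : ∀ b : L, -b - b = b := by
    intro b
    have : (3 : L) * b = 0 := by rw [h3, zero_mul]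
    have h' : b + b + b = 0 := by
      rw [← this]
      noncomm_ring
    calc -b - b = b - (b + b + b) := by abel
      _ = b := by rw [h', sub_zero]
  rw [gens_zero, gens_three]
  ext i
  · simp
  · simp only [mul_v, mul_g, inv_v, inv_g, tr_v, Pi.zero_apply, Units.val_neg, Units.val_one,
      Units.val_mul, inv_neg, inv_one, Pi.single_apply]
    split
    · rename_i hi
      have h1 : (u 0 : L) * (((u 0)⁻¹ : Lˣ) : L) = 1 := Units.mul_inv _
      simp only [mul_neg, neg_mul, one_mul, mul_zero, neg_zero, add_zero, zero_add, mul_one,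
        neg_neg]
      rw [← mul_assoc, h1, one_mul, ← sub_eq_add_neg]
      exact h2 a
    · simp
  · simp [CharTwo.add_self_eq_zero]

section subgroup

variable (H : Subgroup (Big L))

lemma tr_add_mem {a b : L} (ha : tr a ∈ H) (hb : tr b ∈ H) : tr (a + b) ∈ H := by
  rw [← tr_mul]; exact H.mul_mem ha hb

lemma tr_neg_mem {a : L} (ha : tr a ∈ H) : tr (-a) ∈ H := by
  rw [← tr_inv]; exact H.inv_mem ha

lemma tr_sub_mem {a b : L} (ha : tr a ∈ H) (hb : tr b ∈ H) : tr (a - b) ∈ H := by
  rw [sub_eq_add_neg]; exact tr_add_mem H ha (tr_neg_mem H hb)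

lemma tr_smul_mem {h : Big L} (hh : h ∈ H) {a : L} (ha : tr a ∈ H) : tr ((h.g : L) * a) ∈ H := by
  rw [← conj_tr]; exact H.mul_mem (H.mul_mem hh ha) (H.inv_mem hh)

/-- If `H` contains elements with linear parts `x` and `y` then the set of translations in `H` is
stable under `1 + (x - 1)(y - 1)`. -/
lemma tr_word_mem {x y : Lˣ} (hx : ∃ h ∈ H, h.g = x) (hy : ∃ h ∈ H, h.g = y) {a : L}
    (ha : tr a ∈ H) : tr ((1 + ((x : L) - 1) * ((y : L) - 1)) * a) ∈ H := by
  obtain ⟨h, hh, rfl⟩ := hx
  obtain ⟨k, hk, rfl⟩ := hy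
  have e : (1 + ((h.g : L) - 1) * ((k.g : L) - 1)) * a =
      a + ((h.g : L) * ((k.g : L) * a - a) - ((k.g : L) * a - a)) := by noncomm_ring
  rw [e]
  have h1 := tr_sub_mem H (tr_smul_mem H hk ha) ha
  exact tr_add_mem H ha (tr_sub_mem H (tr_smul_mem H hh h1) h1)

end subgroup

/-- Change of the first generator by a translation. -/
lemma tr_mul_gens (u : Fin 3 → Lˣ) (a b : L) : tr (b - a) * gens u a 0 = gens u b 0 := by
  rw [gens_zero, gens_zero]
  ext i
  · simp
  · simp only [mul_v, tr_v, tr_g, Units.val_one, one_mul, Pi.single_apply]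
    split <;> simp
  · simp

lemma gens_g_mem (u : Fin 3 → Lˣ) (a : L) (j : Fin 3) :
    ∃ h ∈ Subgroup.closure (Set.range (gens u a)), h.g = u j := by
  fin_cases j
  · exact ⟨gens u a 0, Subgroup.subset_closure ⟨0, rfl⟩, rfl⟩
  · exact ⟨gens u a 1, Subgroup.subset_closure ⟨1, rfl⟩, rfl⟩
  · exact ⟨gens u a 2, Subgroup.subset_closure ⟨2, rfl⟩, rfl⟩

lemma tr_mem_closure (h3 : (3 : L) = 0) (u : Fin 3 → Lˣ) (a : L) :
    tr a ∈ Subgroup.closure (Set.range (gens u a)) := by
  rw [← comm_eq h3 u a]
  have h0 : gens u a 0 ∈ Subgroup.closure (Set.range (gens u a)) :=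
    Subgroup.subset_closure ⟨0, rfl⟩
  have h4 : gens u a 3 ∈ Subgroup.closure (Set.range (gens u a)) :=
    Subgroup.subset_closure ⟨3, rfl⟩
  exact Subgroup.mul_mem _ (Subgroup.mul_mem _ (Subgroup.mul_mem _ h4 h0)
    (Subgroup.inv_mem _ h4)) (Subgroup.inv_mem _ h0)

/-- If `tr (b - a)` lies in the group generated by `gens u a`, so does `gens u b`. -/
lemma gens_mem (u : Fin 3 → Lˣ) (a b : L)
    (h : tr (b - a) ∈ Subgroup.closure (Set.range (gens u a))) (j : Fin 4) :
    gens u b j ∈ Subgroup.closure (Set.range (gens u a)) := by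
  fin_cases j
  · change gens u b 0 ∈ _
    rw [← tr_mul_gens u a b]
    exact Subgroup.mul_mem _ h (Subgroup.subset_closure ⟨0, rfl⟩)
  · exact Subgroup.subset_closure ⟨1, rfl⟩
  · exact Subgroup.subset_closure ⟨2, rfl⟩
  · exact Subgroup.subset_closure ⟨3, rfl⟩

/-- The two families generate the same group. -/
lemma closure_eq (h3 : (3 : L) = 0) (u : Fin 3 → Lˣ) (s t : L)
    (hs : s = 1 + ((u 0 : L) - 1) * ((u 2 : L) - 1))
    (ht : t = 1 + ((u 1 : L) - 1) * ((u 2 : L) - 1)) (hts : t * s = 1) :
    Subgroup.closure (Set.range (gens u s)) = Subgroup.closure (Set.range (gens u 1)) := by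
  apply le_antisymm
  · rw [Subgroup.closure_le]
    rintro _ ⟨j, rfl⟩
    have h1 := tr_mem_closure h3 u 1
    have h2 := tr_word_mem _ (gens_g_mem u 1 0) (gens_g_mem u 1 2) h1
    rw [← hs, mul_one] at h2
    exact gens_mem u 1 s (tr_sub_mem _ h2 h1) j
  · rw [Subgroup.closure_le]
    rintro _ ⟨j, rfl⟩
    have h1 := tr_mem_closure h3 u s
    have h2 := tr_word_mem _ (gens_g_mem u s 1) (gens_g_mem u s 2) h1
    rw [← ht, hts] at h2
    exact gens_mem u s 1 (tr_sub_mem _ h2 h1) j

/-- The linear part as a homomorphism. -/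
def proj (L : Type) [Ring L] : Big L →* Lˣ where
  toFun := Big.g
  map_one' := rfl
  map_mul' _ _ := rfl

end Big

/-- If the images of a family in `closure S` generate `closure S`, the family generates. -/
lemma closure_coe_eq_top {B : Type} [Group B] (H : Subgroup B) {n : ℕ} (Z : Fin n → H)
    (hZ : Subgroup.closure (Set.range fun i => (Z i : B)) = H) :
    Subgroup.closure (Set.range Z) = ⊤ := by
  apply Subgroup.map_injective H.subtype_injective
  rw [MonoidHom.map_closure, ← Set.range_comp, ← MonoidHom.range_eq_map, Subgroup.range_subtype]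
  exact hZ

open Big in
/-- The general construction: a ring `L` of characteristic three which is not directly finite and
in which the one-sided inverses are words in units. -/
theorem main {L : Type} [Ring L] (h3 : (3 : L) = 0) (u : Fin 3 → Lˣ) (s t : L)
    (hs : s = 1 + ((u 0 : L) - 1) * ((u 2 : L) - 1))
    (ht : t = 1 + ((u 1 : L) - 1) * ((u 2 : L) - 1)) (hts : t * s = 1) (hst : s * t ≠ 1) :
    ∃ (G : Type) (_ : Group G) (C D : PartialResolution G 1),
      C.IsMinimal ∧ D.IsMinimal ∧ C.foxIdeal ≠ D.foxIdeal := by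
  classical
  obtain ⟨H, hH⟩ : ∃ H, H = Subgroup.closure (Set.range (gens u 1)) := ⟨_, rfl⟩
  have hXm : ∀ j, gens u 1 j ∈ H := fun j => by rw [hH]; exact Subgroup.subset_closure ⟨j, rfl⟩
  have hHs : H = Subgroup.closure (Set.range (gens u s)) := by
    rw [hH, closure_eq h3 u s t hs ht hts]
  have hYm : ∀ j, gens u s j ∈ H := fun j => by
    rw [hHs]; exact Subgroup.subset_closure ⟨j, rfl⟩
  let X : Fin 4 → H := fun j => ⟨gens u 1 j, hXm j⟩
  let Y : Fin 4 → H := fun j => ⟨gens u s j, hYm j⟩
  have hX : Subgroup.closure (Set.range X) = ⊤ := closure_coe_eq_top H X hH.symm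
  have hY : Subgroup.closure (Set.range Y) = ⊤ := closure_coe_eq_top H Y hHs.symm
  let π : H →* Lˣ := (Big.proj L).comp H.subtype
  have hπ : ∀ g : H, (π g : L) = ((g : Big L).g : L) := fun _ => rfl
  -- minimality
  have hmin : ∀ D : PartialResolution H 1, ((4 : ℕ) : ℤ) - 1 ≤ D.dirEuler := by
    intro D
    refine le_dirEuler (fun g : H => (g : Big L).w) (fun a b => rfl) X ?_ D
    intro i
    fin_cases i <;> rfl
  refine ⟨H, inferInstance, resOf X hX, resOf Y hY, ?_, ?_, ?_⟩
  · intro D
    rw [dirEuler_resOf]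
    exact hmin D
  · intro D
    rw [dirEuler_resOf]
    exact hmin D
  · intro heq
    -- the Fox ideal of `X` dies in `L`
    have hXker : ∀ v, genMap X v = 0 → ∀ i, rep π (v i) = 0 := by
      have hlow : ∀ v, genMap X v = 0 → ∀ i : Fin 3, rep π (v (Fin.castSucc i)) = 0 := by
        intro v hv i
        have h := derivation_sum π (fun g : H => (g : Big L).v i) (fun a b => rfl) X v hv
        rw [Fin.sum_univ_four] at h
        have e0 : (X 0 : Big L).v i = Pi.single (M := fun _ => L) 0 1 i := rfl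
        have e1 : (X 1 : Big L).v i = Pi.single (M := fun _ => L) 1 1 i := rfl
        have e2 : (X 2 : Big L).v i = Pi.single (M := fun _ => L) 2 1 i := rfl
        have e3 : (X 3 : Big L).v i = 0 := rfl
        rw [e0, e1, e2, e3] at h
        fin_cases i
        · simpa [Pi.single_apply] using h
        · simpa [Pi.single_apply] using h
        · simpa [Pi.single_apply] using h
      intro v hv i
      have h0 := hlow v hv 0
      have h1 := hlow v hv 1
      have h2 := hlow v hv 2
      have h := derivation_sum π (fun g : H => (∑ l : Fin 3, (g : Big L).v l * (1 - (u l : L))) +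
        (((g : Big L).g : L) - 1)) (by
          intro a b
          change (∑ l : Fin 3, ((a : Big L).v l + ((a : Big L).g : L) * (b : Big L).v l) *
            (1 - (u l : L))) + ((((a : Big L).g : L) * ((b : Big L).g : L)) - 1) =
            (∑ l : Fin 3, (a : Big L).v l * (1 - (u l : L))) + (((a : Big L).g : L) - 1) +
            ((a : Big L).g : L) * ((∑ l : Fin 3, (b : Big L).v l * (1 - (u l : L))) +
            (((b : Big L).g : L) - 1))
          simp only [Fin.sum_univ_three]
          noncomm_ring) X v hv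
      rw [Fin.sum_univ_four] at h
      have h0' : rep π (v 0) = 0 := h0
      have h1' : rep π (v 1) = 0 := h1
      have h2' : rep π (v 2) = 0 := h2
      rw [h0', h1', h2', zero_mul, zero_mul, zero_mul, zero_add, zero_add, zero_add] at h
      have e3 : (∑ l : Fin 3, (X 3 : Big L).v l * (1 - (u l : L))) +
          (((X 3 : Big L).g : L) - 1) = 1 := by
        change (∑ l : Fin 3, (0 : Fin 3 → L) l * (1 - (u l : L))) + (((-1 : Lˣ) : L) - 1) = 1
        simp only [Pi.zero_apply, zero_mul, Finset.sum_const_zero, zero_add, Units.val_neg,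
          Units.val_one]
        calc (-1 : L) - 1 = 1 - 3 := by norm_num
          _ = 1 := by rw [h3, sub_zero]
      rw [e3, mul_one] at h
      fin_cases i
      · exact h0'
      · exact h1'
      · exact h2'
      · exact h
    have hle : (resOf X hX).foxIdeal ≤ TwoSidedIdeal.ker (rep π) := by
      rw [PartialResolution.foxIdeal, TwoSidedIdeal.span_le]
      rintro a ⟨v, hv, j, rfl⟩
      rw [SetLike.mem_coe, TwoSidedIdeal.mem_ker]
      exact hXker v ((mem_topKer_resOf X hX v).mp hv) j
    -- hence so does the Fox ideal of `Y`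
    have hYker : ∀ v, genMap Y v = 0 → ∀ i, rep π (v i) = 0 := by
      intro v hv i
      have h1 : v i ∈ (resOf Y hY).foxIdeal :=
        TwoSidedIdeal.subset_span ⟨v, (mem_topKer_resOf Y hY v).mpr hv, i, rfl⟩
      rw [← heq] at h1
      exact (TwoSidedIdeal.mem_ker (rep π)).mp (hle h1)
    obtain ⟨D, hD, hDY⟩ := exists_derivation π Y hY hYker (Pi.single 0 1)
    -- elementary properties of the derivation `D`
    have hD1 : D 1 = 0 := by
      have h := hD 1 1
      rw [mul_one, map_one, Units.val_one, one_mul] at h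
      simpa using h
    have hDinv : ∀ g, D g⁻¹ = -(((π g)⁻¹ : Lˣ) : L) * D g := by
      intro g
      have h := hD g⁻¹ g
      rw [inv_mul_cancel, hD1, map_inv] at h
      rw [neg_mul]
      exact eq_neg_of_add_eq_zero_left h.symm
    -- the relation `E a b`: `tr a ∈ H` and `D (tr a) = b`
    let E : L → L → Prop := fun a b => ∃ h : tr a ∈ H, D ⟨tr a, h⟩ = b
    have hEuniq : ∀ a b b', E a b → E a b' → b = b' := by
      rintro a b b' ⟨h, rfl⟩ ⟨h', rfl⟩
      rfl
    have hEadd : ∀ a b a' b', E a b → E a' b' → E (a + a') (b + b') := by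
      rintro a b a' b' ⟨h, rfl⟩ ⟨h', rfl⟩
      refine ⟨tr_add_mem H h h', ?_⟩
      have e : (⟨tr (a + a'), tr_add_mem H h h'⟩ : H) = ⟨tr a, h⟩ * ⟨tr a', h'⟩ :=
        Subtype.ext (tr_mul a a').symm
      rw [e, hD]
      have : (π ⟨tr a, h⟩ : L) = 1 := rfl
      rw [this, one_mul]
    have hEneg : ∀ a b, E a b → E (-a) (-b) := by
      rintro a b ⟨h, rfl⟩
      refine ⟨tr_neg_mem H h, ?_⟩
      have e : (⟨tr (-a), tr_neg_mem H h⟩ : H) = (⟨tr a, h⟩)⁻¹ :=
        Subtype.ext (tr_inv a).symm
      rw [e, hDinv]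
      have : π ⟨tr a, h⟩ = 1 := rfl
      rw [this, inv_one, Units.val_one, neg_mul, one_mul]
    have hEsub : ∀ a b a' b', E a b → E a' b' → E (a - a') (b - b') := by
      intro a b a' b' h h'
      rw [sub_eq_add_neg, sub_eq_add_neg]
      exact hEadd _ _ _ _ h (hEneg _ _ h')
    have hEsmul : ∀ (x : H) a b, E a b → E ((π x : L) * a) ((π x : L) * b) := by
      rintro x a b ⟨h, rfl⟩
      refine ⟨tr_smul_mem H x.2 h, ?_⟩
      have e : (⟨tr (((x : Big L).g : L) * a), tr_smul_mem H x.2 h⟩ : H) =
          x * ⟨tr a, h⟩ * x⁻¹ :=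
        Subtype.ext (conj_tr (x : Big L) a).symm
      change D ⟨tr (((x : Big L).g : L) * a), tr_smul_mem H x.2 h⟩ = _
      rw [e, hD, hD, hDinv, map_mul]
      have : π ⟨tr a, h⟩ = 1 := rfl
      rw [this, mul_one, neg_mul, mul_neg, ← mul_assoc, Units.mul_inv, one_mul]
      abel
    have hEword : ∀ (x y : H) a b, E a b →
        E ((1 + ((π x : L) - 1) * ((π y : L) - 1)) * a)
          ((1 + ((π x : L) - 1) * ((π y : L) - 1)) * b) := by
      intro x y a b h
      have e : ∀ a : L, (1 + ((π x : L) - 1) * ((π y : L) - 1)) * a =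
          a + ((π x : L) * ((π y : L) * a - a) - ((π y : L) * a - a)) := by
        intro a; noncomm_ring
      rw [e a, e b]
      have h1 := hEsub _ _ _ _ (hEsmul y a b h) h
      exact hEadd _ _ _ _ h (hEsub _ _ _ _ (hEsmul x _ _ h1) h1)
    have htr1 : tr (1 : L) ∈ H := by
      rw [hH]; exact tr_mem_closure h3 u 1
    have htrs : tr s ∈ H := by
      rw [hHs]; exact tr_mem_closure h3 u s
    have hE1 : E 1 (D ⟨tr 1, htr1⟩) := ⟨htr1, rfl⟩
    have hEs : E s (s * D ⟨tr 1, htr1⟩) := by
      have h := hEword (X 0) (X 2) _ _ hE1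
      have e : (1 + ((π (X 0) : L) - 1) * ((π (X 2) : L) - 1)) = s := hs.symm
      rwa [e, mul_one] at h
    have hEs' : E s 1 := by
      refine ⟨htrs, ?_⟩
      have e : (⟨tr s, htrs⟩ : H) = Y 3 * Y 0 * (Y 3)⁻¹ * (Y 0)⁻¹ :=
        Subtype.ext (comm_eq h3 u s).symm
      have hY0 : D (Y 0) = 1 := by rw [hDY, Pi.single_eq_same]
      have hY3 : D (Y 3) = 0 := by
        rw [hDY, Pi.single_eq_of_ne]
        decide
      have hp3 : π (Y 3) = -1 := rfl
      have hp : π (Y 3 * Y 0 * (Y 3)⁻¹) = π (Y 0) := by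
        rw [map_mul, map_mul, map_inv, hp3, inv_neg, inv_one]
        simp
      rw [e, hD, hD, hD, hDinv, hDinv, hY0, hY3, hp, hp3]
      simp only [Units.val_neg, Units.val_one, mul_one, mul_zero, zero_add, add_zero, mul_neg]
      rw [Units.mul_inv]
      calc (-1 : L) + -1 = 1 - 3 := by norm_num
        _ = 1 := by rw [h3, sub_zero]
    have hfin : s * D ⟨tr 1, htr1⟩ = 1 := hEuniq _ _ _ hEs hEs'
    apply hst
    have : t = D ⟨tr 1, htr1⟩ := by
      calc t = t * (s * D ⟨tr 1, htr1⟩) := by rw [hfin, mul_one]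
        _ = D ⟨tr 1, htr1⟩ := by rw [← mul_assoc, hts, one_mul]
    rw [this]
    exact hfin

/-! ### The explicit ring -/

/-- The endomorphism ring of the space of sequences over the field with three elements. -/
abbrev T : Type := Module.End (ZMod 3) (ℕ → ZMod 3)

/-- The right shift. -/
def shiftR : T where
  toFun f := fun i => match i with
    | 0 => 0
    | i + 1 => f i
  map_add' f g := by
    funext i
    cases i <;> simp
  map_smul' r f := by
    funext i
    cases i <;> simp

/-- The left shift. -/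
def shiftL : T where
  toFun f := fun i => f (i + 1)
  map_add' _ _ := rfl
  map_smul' _ _ := rfl

lemma shiftL_mul_shiftR : shiftL * shiftR = 1 := by
  ext f i
  rfl

lemma shiftR_mul_shiftL : shiftR * shiftL ≠ 1 := by
  intro h
  have h1 : (shiftR * shiftL) (fun _ => 1) 0 = (1 : T) (fun _ => 1) 0 := by rw [h]
  have h2 : (0 : ZMod 3) = 1 := h1
  exact absurd h2 (by decide)

/-- A unipotent unit `1 + N` with `N * N = 0`. -/
def unip {R : Type} [Ring R] (N : R) (hN : N * N = 0) : Rˣ where
  val := 1 + N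
  inv := 1 - N
  val_inv := by
    have : (1 + N) * (1 - N) = 1 - N * N := by noncomm_ring
    rw [this, hN, sub_zero]
  inv_val := by
    have : (1 - N) * (1 + N) = 1 - N * N := by noncomm_ring
    rw [this, hN, sub_zero]

lemma upper_sq (a : T) : (!![0, a; 0, 0] : Matrix (Fin 2) (Fin 2) T) * !![0, a; 0, 0] = 0 := by
  ext i j
  fin_cases i <;> fin_cases j <;> simp [Matrix.mul_apply]

lemma lower_sq : (!![0, 0; 1, 0] : Matrix (Fin 2) (Fin 2) T) * !![0, 0; 1, 0] = 0 := by
  ext i j
  fin_cases i <;> fin_cases j <;> simp [Matrix.mul_apply]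

/-- There are a group `G` (of type `FP_1`) and two minimal partial resolutions `C`, `D` of `G` of
length `1` whose first Fox ideals are different.

Idea: let `L` be a ring of characteristic three generated by three units `u_0, u_1, u_2` and
containing `s, t` with `t s = 1 ≠ s t`. Let `G` be the subgroup of `(L³ ⋊ Lˣ) × (ℤ/2)⁴` generated by
`X_i = (e_i, u_i; ε_i)` (`i = 0, 1, 2`) and `z = (0, -1; ε_3)`. Replacing `e_0` by `s e_0` in `X_0`
gives a second generating family `Y` of four elements. Both families are minimal since `G` maps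
onto `(ℤ/2)⁴`. The Fox ideal of `X` is killed by `ℤG → L` (every map from `X` to `L` extends to a
derivation `G → L`), but the Fox ideal of `Y` is not: a derivation `D` with `D Y_0 = 1` and `D z = 0`
would give `1 = s · D(translation by e_0)`, so `s` would be invertible. -/
theorem result : ∃ (G : Type) (_ : Group G) (C D : PartialResolution G 1),
    C.IsMinimal ∧ D.IsMinimal ∧ C.foxIdeal ≠ D.foxIdeal := by
  refine main (L := Matrix (Fin 2) (Fin 2) T) ?_
    ![unip !![0, shiftR - 1; 0, 0] (upper_sq _), unip !![0, shiftL - 1; 0, 0] (upper_sq _),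
      unip !![0, 0; 1, 0] lower_sq]
    !![shiftR, 0; 0, 1] !![shiftL, 0; 0, 1] ?_ ?_ ?_ ?_
  · -- characteristic three
    have h : (3 : T) = 0 := by
      ext f i
      change ((3 : T) f) i = 0
      have e : (3 : T) = (3 : ℕ) • (1 : T) := by simp
      rw [e]
      change (3 : ℕ) • (f i) = 0
      rw [nsmul_eq_mul]
      have : ((3 : ℕ) : ZMod 3) = 0 := by decide
      rw [this, zero_mul]
    have e : (3 : Matrix (Fin 2) (Fin 2) T) = (3 : ℕ) • (1 : Matrix (Fin 2) (Fin 2) T) := by simp
    rw [e]
    ext i j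
    rw [Matrix.smul_apply, nsmul_eq_mul]
    have : ((3 : ℕ) : T) = 0 := by
      rw [← h]; norm_num
    rw [this, zero_mul]
    rfl
  · ext i j
    fin_cases i <;> fin_cases j <;> simp [unip]
  · ext i j
    fin_cases i <;> fin_cases j <;> simp [unip]
  · ext i j
    fin_cases i <;> fin_cases j <;> simp [Matrix.mul_apply, shiftL_mul_shiftR]
  · intro h
    apply shiftR_mul_shiftL
    have h0 := congrFun (congrFun h 0) 0
    simpa [Matrix.mul_apply] using h0

end Pool.Agent.Results.MP_506947_al.FoxIdealsDiffer
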